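import Pool.Agent.Helper94.GA.Goals

/-!
# Packet AFF (MP_d69e80_al): the affine representation

From a joint eigenvector `f` of the conjugation action on `Hom(A, ℚ̄)` to an affine action
without a global fixed point and with integral linear parts.
-/

namespace Pool.Agent.Helper84.GA

open Pool.Agent.Helper94.GA

universe u

theorem AFF : AFF_stmt.{u} := by
  intro H _ A hA hcomm hFG hle χ f n₀ hf hex heig hχ₀
  obtain ⟨a₀, ha₀, hfa₀⟩ := hex
  have f1 : f 1 = 0 := by
    have h := hf 1 A.one_mem 1 A.one_mem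
    rw [mul_one] at h
    exact (add_eq_left.mp h.symm)
  have finv : ∀ a ∈ A, f a⁻¹ = - f a := by
    intro a ha
    have h := hf a ha a⁻¹ (A.inv_mem ha)
    rw [mul_inv_cancel, f1] at h
    exact (neg_eq_of_add_eq_zero_right h.symm).symm
  have χ1 : χ 1 = 1 := by
    have h := heig 1 a₀ ha₀
    rw [one_mul, inv_one, mul_one] at h
    exact mul_right_cancel₀ hfa₀ (by rw [one_mul]; exact h.symm)
  have χmul : ∀ a b, χ (a * b) = χ a * χ b := by
    intro a b
    have h1 := heig (a * b) a₀ ha₀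
    have h2 := heig b a₀ ha₀
    have h3 := heig a (b * a₀ * b⁻¹) (hA.conj_mem a₀ ha₀ b)
    have h4 : a * b * a₀ * (a * b)⁻¹ = a * (b * a₀ * b⁻¹) * a⁻¹ := by group
    rw [h4, h3, h2] at h1
    exact mul_right_cancel₀ hfa₀ (by rw [← h1, mul_assoc])
  have χA : ∀ a ∈ A, χ a = 1 := by
    intro a ha
    have h := heig a a₀ ha₀
    rw [hcomm a ha a₀ ha₀, mul_inv_cancel_right] at h
    exact mul_right_cancel₀ hfa₀ (by rw [one_mul]; exact h.symm)
  refine ⟨χ1, χmul, ?_, ?_⟩
  · intro n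
    obtain ⟨S, hS⟩ := hFG
    let N : Submodule ℤ (AlgebraicClosure ℚ) := Submodule.span ℤ (f '' (S : Set H))
    have hSA : ∀ s ∈ (S : Set H), s ∈ A := fun s hs => hS ▸ Subgroup.subset_closure hs
    have hmem : ∀ a ∈ A, f a ∈ N := by
      intro a ha
      have ha' : a ∈ Subgroup.closure (S : Set H) := hS ▸ ha
      induction ha' using Subgroup.closure_induction with
      | mem x hx => exact Submodule.subset_span ⟨x, hx, rfl⟩
      | one => rw [f1]; exact N.zero_mem
      | mul x y hx hy ihx ihy =>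
        have hxA : x ∈ A := hS ▸ hx
        have hyA : y ∈ A := hS ▸ hy
        rw [hf x hxA y hyA]
        exact N.add_mem (ihx hxA) (ihy hyA)
      | inv x hx ihx =>
        have hxA : x ∈ A := hS ▸ hx
        rw [finv x hxA]
        exact N.neg_mem (ihx hxA)
    refine isIntegral_of_smul_mem_submodule (R := ℤ) N ?_ ?_ (χ n) ?_
    · intro hbot
      have := hmem a₀ ha₀
      rw [hbot, Submodule.mem_bot] at this
      exact hfa₀ this
    · exact Submodule.fg_span (S.finite_toSet.image f)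
    · intro m hm
      induction hm using Submodule.span_induction with
      | mem x hx =>
        obtain ⟨s, hs, rfl⟩ := hx
        rw [smul_eq_mul, ← heig n s (hSA s hs)]
        exact hmem _ (hA.conj_mem s (hSA s hs) n)
      | zero => rw [smul_zero]; exact N.zero_mem
      | add x y _ _ hx hy => rw [smul_add]; exact N.add_mem hx hy
      | smul k x _ hx =>
        have : χ n • (k • x) = k • (χ n • x) := smul_comm _ _ _
        rw [this]
        exact N.smul_mem k hx
  · have hd : χ n₀ - 1 ≠ 0 := sub_ne_zero.mpr hχ₀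
    have hcA : ∀ n, n₀ * n * n₀⁻¹ * n⁻¹ ∈ A := fun n =>
      hle (Subgroup.commutator_mem_commutator (Subgroup.mem_top n₀) (Subgroup.mem_top n))
    refine ⟨fun n => f (n₀ * n * n₀⁻¹ * n⁻¹) / (χ n₀ - 1), ?_, ?_⟩
    · intro a b
      have h : n₀ * (a * b) * n₀⁻¹ * (a * b)⁻¹ =
          (n₀ * a * n₀⁻¹ * a⁻¹) * (a * (n₀ * b * n₀⁻¹ * b⁻¹) * a⁻¹) := by group
      show f (n₀ * (a * b) * n₀⁻¹ * (a * b)⁻¹) / (χ n₀ - 1) =
        f (n₀ * a * n₀⁻¹ * a⁻¹) / (χ n₀ - 1) + χ a * (f (n₀ * b * n₀⁻¹ * b⁻¹) / (χ n₀ - 1))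
      rw [h, hf _ (hcA a) _ (hA.conj_mem _ (hcA b) a), heig a _ (hcA b), add_div, mul_div_assoc]
    · intro z
      refine ⟨a₀, ?_⟩
      have h1 : f (n₀ * a₀ * n₀⁻¹ * a₀⁻¹) = (χ n₀ - 1) * f a₀ := by
        rw [hf _ (hA.conj_mem a₀ ha₀ n₀) _ (A.inv_mem ha₀), heig n₀ a₀ ha₀, finv a₀ ha₀]
        ring
      show χ a₀ * z + f (n₀ * a₀ * n₀⁻¹ * a₀⁻¹) / (χ n₀ - 1) ≠ z
      rw [h1, χA a₀ ha₀, one_mul, mul_div_cancel_left₀ _ hd]
      intro h
      exact hfa₀ (add_eq_left.mp h)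

end Pool.Agent.Helper84.GA
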